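import Pool.Agent.NSB.Final

set_option autoImplicit false

/-! The BMO seminorm of the vector potential tends to infinity at a blow-up time unless the terminal
velocity lies in the dual form of BMO⁻¹ and the velocity obeys a critical bound at all times and
all scales above the parabolic one, on balls where it is not intense. -/

open MeasureTheory Set Filter Topology Metric
open scoped ContDiff ENNReal NNReal
open Pool.Agent.NSB

noncomputable section

namespace Pool.Agent.Results.MP_b43f02_an.CoarseScales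

/-- The terminal velocity at time `T`, as a functional on fields: the limit of the pairings. -/
def terminal (u : ℝ → E → E) (T : ℝ) (φ : E → E) : ℝ :=
  limUnder (𝓝[<] T) fun t => ∫ x, inner ℝ (u t x) (φ x)

/-- The terminal velocity is in `BMO⁻¹` in the dual sense, with constant `K`. -/
def TerminalInBMOInv (u : ℝ → E → E) (T K : ℝ) : Prop :=
  ∀ (c : E) (r A : ℝ) (φ : E → E), 0 < r → IsTest c r φ → (∀ x, ‖curl φ x‖ ≤ A) →
    |terminal u T φ| ≤ K * A * volume.real (ball c r)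

/-- Critical bound at all times `s < T` and all scales `r`, with error terms `T - s` (harmless for
`r ≥ (T - s)^(1/2)`) and the local kinetic energy on the cylinder `(s, T) × B(c, r)`. -/
def CoarseBound (u : ℝ → E → E) (T K : ℝ) : Prop :=
  ∀ s ∈ Ioo 0 T, ∀ (c : E) (r : ℝ) (φ : E → E), 0 < r → IsTest c r φ →
    (∀ x, r * ‖fderiv ℝ φ x‖ ≤ 1) → (∀ x, r ^ 2 * ‖lapV φ x‖ ≤ 1) →
    |∫ x, inner ℝ (u s x) (φ x)|
      ≤ K * (r ^ 2 + (T - s) + r⁻¹ * ∫ τ in s..T, ∫ x in ball c r, ‖u τ x‖ ^ 2)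

theorem result {T : ℝ} (hT : 0 < T) {u : ℝ → E → E} {p : ℝ → E → ℝ} {ψ : ℝ → E → E}
    (h : IsSolution T u p) (hψ : ∀ t ∈ Ioo 0 T, IsVectorPotential (u t) (ψ t)) :
    (∀ (c : E) (r : ℝ) (φ : E → E), 0 < r → IsTest c r φ →
      Tendsto (fun t => ∫ x, inner ℝ (u t x) (φ x)) (𝓝[<] T) (𝓝 (terminal u T φ))) ∧
    (∀ K : ℝ, 0 ≤ K → (∃ᶠ t in 𝓝[<] T, bmo (ψ t) ≤ ENNReal.ofReal K) →
      TerminalInBMOInv u T K ∧ CoarseBound u T (20 * (K + 1))) ∧
    ((∀ K : ℝ, ¬ (TerminalInBMOInv u T K ∧ CoarseBound u T K)) →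
      Tendsto (fun t => bmo (ψ t)) (𝓝[<] T) (𝓝 ⊤)) := by
  have A : ∀ (c : E) (r : ℝ) (φ : E → E), 0 < r → IsTest c r φ →
      Tendsto (fun t => ∫ x, inner ℝ (u t x) (φ x)) (𝓝[<] T) (𝓝 (terminal u T φ)) :=
    fun c r φ hr hφ => tendsto_pair h hT hr hφ
  have B : ∀ K : ℝ, 0 ≤ K → (∃ᶠ t in 𝓝[<] T, bmo (ψ t) ≤ ENNReal.ofReal K) →
      TerminalInBMOInv u T K ∧ CoarseBound u T (20 * (K + 1)) := by
    intro K hK hfr
    have hfr' : ∃ᶠ t in 𝓝[<] T, bmo (ψ t) ≤ ENNReal.ofReal K ∧ t ∈ Ioo 0 T :=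
      hfr.and_eventually (Ioo_mem_nhdsLT hT)
    refine ⟨?_, ?_⟩
    · intro c r A' φ hr hφ hA
      refine le_of_tendsto_of_frequently (A c r φ hr hφ).abs ?_
      exact hfr'.mono fun t ht => abs_pair_le hr hK (hψ t ht.2) hφ hA ht.1
    · intro s hs c r φ hr hφ h1 h2
      have hfs : ∃ᶠ t in 𝓝[<] T, bmo (ψ t) ≤ ENNReal.ofReal K ∧ t ∈ Ioo s T :=
        hfr.and_eventually (Ioo_mem_nhdsLT hs.2)
      obtain ⟨t, htb, htI⟩ := hfs.exists
      have e := fundamental h hψ hs.1 htI.1.le htI.2 hr hK hφ h1 h2 htb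
      have hI : 0 ≤ r⁻¹ * ∫ τ in s..T, ∫ x in ball c r, ‖u τ x‖ ^ 2 :=
        mul_nonneg (inv_nonneg.2 hr.le)
          (intervalIntegral.integral_nonneg hs.2.le fun τ _ => locEn_nonneg _ _ _ _)
      have e' : |∫ x, inner ℝ (u s x) (φ x)| ≤ 17 * K * r ^ 2
          + 5 / 4 * (r⁻¹ * ∫ τ in s..T, ∫ x in ball c r, ‖u τ x‖ ^ 2) + 5 / 4 * (T - s) := e
      have hr2 : 0 ≤ r ^ 2 := by positivity
      have hsT : 0 ≤ T - s := (sub_pos.2 hs.2).le
      nlinarith [mul_nonneg hK hI, mul_nonneg hK hr2, mul_nonneg hK hsT]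
  refine ⟨A, B, fun hn => ?_⟩
  rw [ENNReal.tendsto_nhds_top_iff_nnreal]
  intro K
  by_contra hcon
  have hfr : ∃ᶠ t in 𝓝[<] T, bmo (ψ t) ≤ ENNReal.ofReal (K : ℝ) := by
    rw [Filter.not_eventually] at hcon
    refine hcon.mono fun t ht => ?_
    rw [ENNReal.ofReal_coe_nnreal]
    exact not_lt.1 ht
  obtain ⟨h1, h2⟩ := B K K.coe_nonneg hfr
  refine hn (20 * (K + 1)) ⟨?_, h2⟩
  intro c r A' φ hr hφ hA
  have hA0 : 0 ≤ A' := (norm_nonneg _).trans (hA 0)
  refine (h1 c r A' φ hr hφ hA).trans ?_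
  have hv : 0 ≤ A' * volume.real (ball c r) := mul_nonneg hA0 measureReal_nonneg
  have hK := K.coe_nonneg
  calc (K : ℝ) * A' * volume.real (ball c r) = K * (A' * volume.real (ball c r)) := by ring
    _ ≤ (20 * (K + 1)) * (A' * volume.real (ball c r)) := by gcongr; linarith
    _ = _ := by ring

end Pool.Agent.Results.MP_b43f02_an.CoarseScales
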