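import Pool.Agent.NSB.Final

set_option autoImplicit false

/-! Lower bound for the growth of the BMO seminorm of the vector potential at a blow-up time with
a supercritical terminal profile. -/

open MeasureTheory Set Filter Topology Metric
open scoped ContDiff ENNReal NNReal
open Pool.Agent.NSB

noncomputable section

namespace Pool.Agent.Results.MP_b43f02_an.GrowthRate

/-- The terminal velocity at time `T`, as a functional on fields: the limit of the pairings. -/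
def terminal (u : ℝ → E → E) (T : ℝ) (φ : E → E) : ℝ :=
  limUnder (𝓝[<] T) fun t => ∫ x, inner ℝ (u t x) (φ x)

/-- The terminal velocity at the point `x₀` is at least as singular as `|x - x₀| ^ (-1 - δ)`,
tested against normalised solenoidal fields. -/
def SupercriticalAt (u : ℝ → E → E) (T : ℝ) (x₀ : E) (δ : ℝ) : Prop :=
  ∃ c₀ > 0, ∃ r₀ > 0, ∀ r ∈ Ioc 0 r₀, ∃ φ : E → E, IsTest x₀ r φ ∧
    (∀ x, r * ‖fderiv ℝ φ x‖ ≤ 1) ∧ (∀ x, r ^ 2 * ‖lapV φ x‖ ≤ 1) ∧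
    c₀ * r ^ (2 - δ) ≤ |terminal u T φ|

/-- The local kinetic energy near `x₀` is `O(r ^ m)`, uniformly in time. -/
def EnergyGrowthAt (u : ℝ → E → E) (T : ℝ) (x₀ : E) (m : ℝ) : Prop :=
  ∃ C : ℝ, ∃ r₀ > 0, ∀ t ∈ Ioo 0 T, ∀ r ∈ Ioc 0 r₀, ∫ x in ball x₀ r, ‖u t x‖ ^ 2 ≤ C * r ^ m

theorem terminal_increment {T : ℝ} {u : ℝ → E → E} {p : ℝ → E → ℝ} (h : IsSolution T u p)
    {t : ℝ} (ht : t ∈ Ioo 0 T) {φ : E → E} {c : E} {r B : ℝ} (hr : 0 < r) (hφ : IsTest c r φ)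
    (h1 : ∀ x, r * ‖fderiv ℝ φ x‖ ≤ 1) (h2 : ∀ x, r ^ 2 * ‖lapV φ x‖ ≤ 1)
    (hB : ∀ τ ∈ Ioo 0 T, locEn u c r τ ≤ B) :
    |terminal u T φ - pair u φ t| ≤ 5 / 4 * (r⁻¹ * B + 1) * (T - t) := by
  have hT : 0 < T := ht.1.trans ht.2
  have hB0 : 0 ≤ B := (locEn_nonneg _ _ _ _).trans (hB t ht)
  have hG : ∀ x, ‖fderiv ℝ φ x‖ ≤ 1 / r := fun x => by
    rw [le_div_iff₀ hr, mul_comm]; exact h1 x
  have hH : ∀ x, ‖lapV φ x‖ ≤ 1 / r ^ 2 := fun x => by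
    rw [le_div_iff₀ (by positivity), mul_comm]; exact h2 x
  have hlim : Tendsto (fun s => |pair u φ s - pair u φ t|) (𝓝[<] T)
      (𝓝 |terminal u T φ - pair u φ t|) :=
    ((tendsto_pair h hT hr hφ).sub tendsto_const_nhds).abs
  refine le_of_tendsto hlim ?_
  filter_upwards [Ioo_mem_nhdsLT ht.2] with s hs
  refine (pairing_increment h ht.1 hs.1.le hs.2 hr hφ hG hH).trans ?_
  have e1 : ∫ τ in t..s, locEn u c r τ ≤ B * (s - t) := by
    have h2 : ‖∫ τ in t..s, locEn u c r τ‖ ≤ B * |s - t| := by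
      refine intervalIntegral.norm_integral_le_of_norm_le_const fun τ hτ => ?_
      rw [uIoc_of_le hs.1.le] at hτ
      rw [Real.norm_eq_abs, abs_of_nonneg (locEn_nonneg _ _ _ _)]
      exact hB τ ⟨ht.1.trans hτ.1, hτ.2.trans_lt hs.2⟩
    rw [abs_of_nonneg (sub_nonneg.2 hs.1.le)] at h2
    exact (le_abs_self _).trans h2
  rw [vol_ball c hr]
  have hpi : Real.pi < 3.15 := Real.pi_lt_d2
  have c1 : (1 / r + 1 / r ^ 2 * r / 4) = 5 / 4 * r⁻¹ := by field_simp; ring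
  have c2 : 1 / r ^ 2 / (4 * r) * (4 / 3 * Real.pi * r ^ 3) = Real.pi / 3 := by field_simp
  rw [c1, c2]
  have hst : 0 ≤ s - t := sub_nonneg.2 hs.1.le
  have hsT : s - t ≤ T - t := by linarith [hs.2]
  have hri : 0 ≤ r⁻¹ := inv_nonneg.2 hr.le
  calc 5 / 4 * r⁻¹ * (∫ τ in t..s, locEn u c r τ) + Real.pi / 3 * (s - t)
      ≤ 5 / 4 * r⁻¹ * (B * (s - t)) + 5 / 4 * (s - t) := by
        have hp3 : Real.pi / 3 ≤ 5 / 4 := by linarith
        exact add_le_add (by gcongr) (mul_le_mul_of_nonneg_right hp3 hst)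
    _ = 5 / 4 * (r⁻¹ * B + 1) * (s - t) := by ring
    _ ≤ 5 / 4 * (r⁻¹ * B + 1) * (T - t) := by gcongr

theorem result {T : ℝ} (hT : 0 < T) {u : ℝ → E → E} {p : ℝ → E → ℝ} {ψ : ℝ → E → E}
    (h : IsSolution T u p) (hψ : ∀ t ∈ Ioo 0 T, IsVectorPotential (u t) (ψ t))
    {x₀ : E} {δ m : ℝ} (hδ : 0 < δ) (hδ1 : δ ≤ 1) (hm0 : 0 ≤ m) (hm1 : m ≤ 1)
    (hsup : SupercriticalAt u T x₀ δ) (hm : m = 0 ∨ EnergyGrowthAt u T x₀ m) :
    ∃ c₁ > 0, ∀ᶠ t in 𝓝[<] T,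
      ENNReal.ofReal (c₁ * (T - t) ^ (-(δ / (3 - δ - m)))) ≤ bmo (ψ t) := by
  obtain ⟨c₀, hc₀, r₁, hr₁, hs⟩ := hsup
  obtain ⟨C, hC0, r₂, hr₂, hC⟩ : ∃ C : ℝ, 0 ≤ C ∧ ∃ r₂ > 0, ∀ t ∈ Ioo 0 T, ∀ r ∈ Ioc 0 r₂,
      locEn u x₀ r t ≤ C * r ^ m := by
    rcases hm with rfl | ⟨C, r₂, hr₂, hC⟩
    · obtain ⟨E₀, hE0, hE⟩ := locEn_le h
      exact ⟨E₀, hE0, 1, one_pos, fun t ht r _ => by simpa using hE t ht x₀ r⟩
    · refine ⟨max C 0, le_max_right _ _, r₂, hr₂, fun t ht r hr => (hC t ht r hr).trans ?_⟩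
      gcongr
      · exact Real.rpow_nonneg hr.1.le _
      · exact le_max_left _ _
  set q : ℝ := 3 - δ - m with hq
  have hq0 : 0 < q := by rw [hq]; linarith
  set r₀ : ℝ := min (min r₁ r₂) 1 with hr₀
  have hr₀0 : 0 < r₀ := lt_min (lt_min hr₁ hr₂) one_pos
  set lam : ℝ := 5 / 2 * (C + 1) / c₀ with hlam
  have hlam0 : 0 < lam := by positivity
  refine ⟨c₀ / 40 * lam ^ (-(δ / q)), by positivity, ?_⟩
  have hlim : Tendsto (fun t => (lam * (T - t)) ^ (1 / q)) (𝓝[<] T) (𝓝 0) := by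
    have h1 : Continuous fun t : ℝ => (lam * (T - t)) ^ (1 / q) :=
      (continuous_const.mul (continuous_const.sub continuous_id)).rpow_const
        fun _ => Or.inr (by positivity)
    have h2 := (h1.tendsto T).mono_left (nhdsWithin_le_nhds (s := Iio T))
    simpa [Real.zero_rpow (by positivity : q⁻¹ ≠ 0)] using h2
  filter_upwards [Ioo_mem_nhdsLT hT, hlim.eventually (gt_mem_nhds hr₀0)] with t ht hrt
  have hTt : 0 < T - t := sub_pos.2 ht.2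
  set r : ℝ := (lam * (T - t)) ^ (1 / q) with hr
  have hr0 : 0 < r := by positivity
  have hrr₁ : r ≤ r₁ := hrt.le.trans ((min_le_left _ _).trans (min_le_left _ _))
  have hrr₂ : r ≤ r₂ := hrt.le.trans ((min_le_left _ _).trans (min_le_right _ _))
  have hrr1 : r ≤ 1 := hrt.le.trans (min_le_right _ _)
  have hrq : r ^ q = lam * (T - t) := by
    rw [hr, ← Real.rpow_mul (by positivity), one_div, inv_mul_cancel₀ hq0.ne', Real.rpow_one]
  obtain ⟨φ, hφ, h1, h2, h3⟩ := hs r ⟨hr0, hrr₁⟩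
  by_contra hcon
  rw [not_le] at hcon
  have hX : c₀ / 40 * lam ^ (-(δ / q)) * (T - t) ^ (-(δ / q)) = c₀ / 40 * r ^ (-δ) := by
    rw [hr, ← Real.rpow_mul (by positivity), mul_assoc, ← Real.mul_rpow hlam0.le hTt.le]
    congr 2
    field_simp
  rw [hX] at hcon
  have hA : ∀ x, ‖curl φ x‖ ≤ 4 / r := fun x => by
    refine (norm_curl_le φ (hφ.smooth.differentiable (by simp) x)).trans ?_
    rw [le_div_iff₀ hr0]
    linarith [h1 x]
  have e1 := abs_pair_le hr0 (K := c₀ / 40 * r ^ (-δ)) (by positivity) (hψ t ht) hφ hA hcon.le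
  rw [vol_ball x₀ hr0] at e1
  have e2 := terminal_increment h ht hr0 hφ h1 h2 fun τ hτ => hC τ hτ r ⟨hr0, hrr₂⟩
  have e3 : |terminal u T φ| ≤ |pair u φ t| + |terminal u T φ - pair u φ t| := by
    have := abs_sub_abs_le_abs_sub (terminal u T φ) (pair u φ t)
    linarith
  have hpi : Real.pi < 3.15 := Real.pi_lt_d2
  have e4 : |pair u φ t| ≤ 17 / 40 * (c₀ * r ^ (2 - δ)) := by
    refine e1.trans ?_
    have a1 : r ^ (2 - δ) = r ^ (-δ) * r ^ 2 := by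
      rw [← Real.rpow_natCast r 2, ← Real.rpow_add hr0]; congr 1; push_cast; ring
    have a2 : c₀ / 40 * r ^ (-δ) * (4 / r) * (4 / 3 * Real.pi * r ^ 3)
        = (16 / 3 * Real.pi) * (c₀ / 40 * (r ^ (-δ) * r ^ 2)) := by field_simp; ring
    rw [a2, a1]
    have a3 : 16 / 3 * Real.pi ≤ 17 := by linarith
    calc (16 / 3 * Real.pi) * (c₀ / 40 * (r ^ (-δ) * r ^ 2))
        ≤ 17 * (c₀ / 40 * (r ^ (-δ) * r ^ 2)) := by gcongr
      _ = _ := by ring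
  have e5 : 5 / 4 * (r⁻¹ * (C * r ^ m) + 1) * (T - t) ≤ 1 / 2 * (c₀ * r ^ (2 - δ)) := by
    have b1 : r⁻¹ * (C * r ^ m) = C * r ^ (m - 1) := by
      rw [Real.rpow_sub hr0, Real.rpow_one]; field_simp
    have b2 : 1 ≤ r ^ (m - 1) := Real.one_le_rpow_of_pos_of_le_one_of_nonpos hr0 hrr1 (by linarith)
    have b3 : r ^ (2 - δ) = r ^ (m - 1) * r ^ q := by
      rw [← Real.rpow_add hr0]; congr 1; rw [hq]; ring
    rw [b1, b3, hrq]
    have b4 : 0 < r ^ (m - 1) := by positivity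
    calc 5 / 4 * (C * r ^ (m - 1) + 1) * (T - t)
        ≤ 5 / 4 * (C * r ^ (m - 1) + r ^ (m - 1)) * (T - t) := by gcongr
      _ = 1 / 2 * (c₀ * (r ^ (m - 1) * (lam * (T - t)))) := by
        rw [hlam]; field_simp; ring
  have e6 : 0 < c₀ * r ^ (2 - δ) := by positivity
  linarith

end Pool.Agent.Results.MP_b43f02_an.GrowthRate
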